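import Pool.Agent.Lib.helper11.ETRPoly

namespace Pool.Agent.Results.MP_ca1301_lc.ERHard

open Pool.Agent.Cx Matrix

/-- a vector of length `n`, extended by zeros -/
def ext {n : ℕ} (x : Fin n → ℝ) (i : ℕ) : ℝ := if h : i < n then x ⟨i, h⟩ else 0

/-- `I = (n, f, g)`: polynomials in `n` variables with `f x = g (A x + b)` for some `A`, `b` -/
def Proj (I : ℕ × Poly × Poly) : Prop :=
  I.2.1.In I.1 ∧ I.2.2.In I.1 ∧ ∃ (A : Matrix (Fin I.1) (Fin I.1) ℝ) (b : Fin I.1 → ℝ),
    ∀ x : Fin I.1 → ℝ, I.2.1.ev (ext x) = I.2.2.ev (ext (A *ᵥ x + b))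

def red (E : List (Eqn ℕ)) : ℕ × Poly × Poly :=
  (size E + 3, [(c1, [0, 0])], (c1, [size E + 2, size E + 2]) :: quart E)

lemma red_iff (E : List (Eqn ℕ)) : FMA E ↔ Proj (red E) := by
  show _ ↔ Poly.In [(c1, [0, 0])] (size E + 3) ∧
    Poly.In ((c1, [size E + 2, size E + 2]) :: quart E) (size E + 3) ∧
    ∃ (A : Matrix (Fin (size E + 3)) (Fin (size E + 3)) ℝ) (b : Fin (size E + 3) → ℝ),
      ∀ x, Poly.ev [(c1, [0, 0])] (ext x) =
        Poly.ev ((c1, [size E + 2, size E + 2]) :: quart E) (ext (A *ᵥ x + b))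
  constructor
  · rintro ⟨x, hx⟩
    refine ⟨by simp [Poly.In], ?_, Matrix.of fun i j => if i.1 = size E + 2 ∧ j = 0 then 1 else 0,
      fun i => if i.1 = size E + 2 then 0 else x i, fun y => ?_⟩
    · intro t ht
      rcases List.mem_cons.1 ht with rfl | ht
      · simp
      · exact (quart_in E).mono (by simp) t ht
    · simp only [Poly.ev_cons, Poly.ev_nil]
      rw [Poly.ev_congr (quart_in E) (y := x), (quart_ev E x).2.2 hx]
      · simp [ext, mulVec, dotProduct]
      · intro i hi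
        simp [ext, mulVec, dotProduct, show i < size E + 3 by omega, hi.ne]
  · rintro ⟨-, -, A, b, h⟩
    have := h 0
    have h0 := quart_ev E (ext (A *ᵥ 0 + b))
    refine ⟨_, h0.2.1 ?_⟩
    simp [ext] at this
    simp only [mulVec_zero, zero_add] at h0 ⊢
    nlinarith [mul_self_nonneg (b ⟨size E + 2, by simp⟩), h0.1]

theorem result : ERHard (Lang Proj) ∧
    ERHard (Lang fun I => Proj I ∧ I.2.1 = [((false, [true]), [0, 0])]) :=
  have : PT red := by unfold red; fun_prop
  ⟨(rh_fma.red this red_iff).erHard,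
    (rh_fma.red this fun E => (red_iff E).trans (and_iff_left rfl).symm).erHard⟩

end Pool.Agent.Results.MP_ca1301_lc.ERHard
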